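import Mathlib
import Pool.Agent.Work.MP_db9399_mad.Interface

/-!
# MP_db9399, THEOREM MAD, block GG: the Gabber-Galil expander (helper46)
-/

set_option autoImplicit false

namespace Pool.Agent.Work.MP_db9399_mad.helper46

open Finset Complex

noncomputable section

variable {m : ℕ} [NeZero m]

/-- The additive character. -/
def ps (m : ℕ) [NeZero m] : AddChar (ZMod m) ℂ := ZMod.stdAddChar

/-- Fourier transform on `(ZMod m)^2`. -/
def FT (g : ZMod m × ZMod m → ℝ) (z : ZMod m × ZMod m) : ℂ :=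
  ∑ w : ZMod m × ZMod m, (g w : ℂ) * ps m (-(z.1 * w.1 + z.2 * w.2))

theorem orth (u : ZMod m × ZMod m) :
    ∑ z : ZMod m × ZMod m, ps m (z.1 * u.1 + z.2 * u.2) = if u = 0 then (m : ℂ) ^ 2 else 0 := by
  have h1 : ∀ z : ZMod m × ZMod m, ps m (z.1 * u.1 + z.2 * u.2)
      = ps m (z.1 * u.1) * ps m (z.2 * u.2) := fun z => by
    rw [AddChar.map_add_eq_mul]
  simp only [h1]
  rw [Fintype.sum_prod_type]
  simp only []
  rw [← Finset.sum_mul_sum (s := (univ : Finset (ZMod m))) (t := (univ : Finset (ZMod m)))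
    (f := fun a => ps m (a * u.1)) (g := fun b => ps m (b * u.2))]
  rw [ps, AddChar.sum_mulShift _ (ZMod.isPrimitive_stdAddChar m),
    AddChar.sum_mulShift _ (ZMod.isPrimitive_stdAddChar m)]
  by_cases h1 : u.1 = 0 <;> by_cases h2 : u.2 = 0
  · have : u = 0 := Prod.ext h1 h2
    simp [this, ZMod.card, pow_two]
  · have : u ≠ 0 := fun h => h2 (by rw [h]; rfl)
    simp [this, h2]
  · have : u ≠ 0 := fun h => h1 (by rw [h]; rfl)
    simp [this, h1]
  · have : u ≠ 0 := fun h => h1 (by rw [h]; rfl)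
    simp [this, h1]

theorem parseval (g : ZMod m × ZMod m → ℝ) :
    ∑ z, ‖FT g z‖ ^ 2 = (m : ℝ) ^ 2 * ∑ w, g w ^ 2 := by
  have key : ((∑ z, ‖FT g z‖ ^ 2 : ℝ) : ℂ) = (((m : ℝ) ^ 2 * ∑ w, g w ^ 2 : ℝ) : ℂ) := by
    push_cast
    have h1 : ∀ z : ZMod m × ZMod m, ((‖FT g z‖ : ℝ) : ℂ) ^ 2
        = ∑ w : ZMod m × ZMod m, ∑ w' : ZMod m × ZMod m,
          ((g w : ℂ) * (g w' : ℂ)) * ps m (z.1 * (w' - w).1 + z.2 * (w' - w).2) := by
      intro z
      rw [← Complex.mul_conj', FT, map_sum, Finset.sum_mul_sum]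
      refine Finset.sum_congr rfl fun w _ => Finset.sum_congr rfl fun w' _ => ?_
      rw [map_mul, Complex.conj_ofReal, ← AddChar.map_neg_eq_conj]
      have : z.1 * (w' - w).1 + z.2 * (w' - w).2
          = -(z.1 * w.1 + z.2 * w.2) + -(-(z.1 * w'.1 + z.2 * w'.2)) := by
        simp only [Prod.fst_sub, Prod.snd_sub]; ring
      rw [this, AddChar.map_add_eq_mul]
      ring
    simp only [h1]
    rw [Finset.sum_comm]
    have h2 : ∀ w : ZMod m × ZMod m, ∑ z : ZMod m × ZMod m, ∑ w' : ZMod m × ZMod m,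
          ((g w : ℂ) * (g w' : ℂ)) * ps m (z.1 * (w' - w).1 + z.2 * (w' - w).2)
        = (m : ℂ) ^ 2 * (g w : ℂ) ^ 2 := by
      intro w
      rw [Finset.sum_comm]
      have h3 : ∀ w' : ZMod m × ZMod m, ∑ z : ZMod m × ZMod m,
          ((g w : ℂ) * (g w' : ℂ)) * ps m (z.1 * (w' - w).1 + z.2 * (w' - w).2)
          = if w' = w then ((g w : ℂ) * (g w' : ℂ)) * (m : ℂ) ^ 2 else 0 := by
        intro w'
        rw [← Finset.mul_sum, orth]
        by_cases h : w' = w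
        · rw [if_pos h, if_pos (by rw [h, sub_self])]
        · rw [if_neg h, if_neg (fun h' => h (sub_eq_zero.1 h')), mul_zero]
      simp only [h3]
      rw [Finset.sum_ite_eq' univ w]
      simp only [Finset.mem_univ, if_true]
      ring
    simp only [h2]
    rw [Finset.mul_sum]
  exact_mod_cast key

theorem FT_sub (g h : ZMod m × ZMod m → ℝ) (z : ZMod m × ZMod m) :
    FT (fun w => g w - h w) z = FT g z - FT h z := by
  unfold FT
  rw [← Finset.sum_sub_distrib]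
  refine Finset.sum_congr rfl fun w _ => ?_
  push_cast
  ring

theorem FT_zero (g : ZMod m × ZMod m → ℝ) (hg : ∑ z, g z = 0) : FT g 0 = 0 := by
  unfold FT
  simp only [Prod.fst_zero, Prod.snd_zero, zero_mul, add_zero, neg_zero,
    AddChar.map_zero_eq_one, mul_one]
  exact_mod_cast congrArg (fun x : ℝ => (x : ℂ)) hg

/-- The shear `(x, y) ↦ (x + 2 y, y)`. -/
def T1 (m : ℕ) : Equiv.Perm (ZMod m × ZMod m) where
  toFun z := (z.1 + 2 * z.2, z.2)
  invFun z := (z.1 - 2 * z.2, z.2)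
  left_inv z := by ext <;> simp
  right_inv z := by ext <;> simp

/-- The shear `(x, y) ↦ (x, y + 2 x)`. -/
def T2 (m : ℕ) : Equiv.Perm (ZMod m × ZMod m) where
  toFun z := (z.1, z.2 + 2 * z.1)
  invFun z := (z.1, z.2 - 2 * z.1)
  left_inv z := by ext <;> simp
  right_inv z := by ext <;> simp

/-- The shift `(x, y) ↦ (x + 1, y)`. -/
def E1 (m : ℕ) : Equiv.Perm (ZMod m × ZMod m) where
  toFun z := (z.1 + 1, z.2)
  invFun z := (z.1 - 1, z.2)
  left_inv z := by ext <;> simp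
  right_inv z := by ext <;> simp

/-- The shift `(x, y) ↦ (x, y + 1)`. -/
def E2 (m : ℕ) : Equiv.Perm (ZMod m × ZMod m) where
  toFun z := (z.1, z.2 + 1)
  invFun z := (z.1, z.2 - 1)
  left_inv z := by ext <;> simp
  right_inv z := by ext <;> simp

theorem FT_T1 (g : ZMod m × ZMod m → ℝ) (z : ZMod m × ZMod m) :
    FT (fun w => g (T1 m w)) z = FT g ((T2 m).symm z) := by
  unfold FT
  rw [← Equiv.sum_comp (T1 m) (fun w => (g w : ℂ)
    * ps m (-(((T2 m).symm z).1 * w.1 + ((T2 m).symm z).2 * w.2)))]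
  refine Finset.sum_congr rfl fun w _ => ?_
  have : ((T2 m).symm z).1 * (T1 m w).1 + ((T2 m).symm z).2 * (T1 m w).2
      = z.1 * w.1 + z.2 * w.2 := by
    simp only [T1, T2, Equiv.coe_fn_mk, Equiv.coe_fn_symm_mk]
    ring
  rw [this]

theorem FT_T2 (g : ZMod m × ZMod m → ℝ) (z : ZMod m × ZMod m) :
    FT (fun w => g (T2 m w)) z = FT g ((T1 m).symm z) := by
  unfold FT
  rw [← Equiv.sum_comp (T2 m) (fun w => (g w : ℂ)
    * ps m (-(((T1 m).symm z).1 * w.1 + ((T1 m).symm z).2 * w.2)))]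
  refine Finset.sum_congr rfl fun w _ => ?_
  have : ((T1 m).symm z).1 * (T2 m w).1 + ((T1 m).symm z).2 * (T2 m w).2
      = z.1 * w.1 + z.2 * w.2 := by
    simp only [T1, T2, Equiv.coe_fn_mk, Equiv.coe_fn_symm_mk]
    ring
  rw [this]

theorem FT_E1 (g : ZMod m × ZMod m → ℝ) (z : ZMod m × ZMod m) :
    FT (fun w => g (E1 m w)) z = ps m z.1 * FT g z := by
  unfold FT
  rw [← Equiv.sum_comp (E1 m) (fun w => (g w : ℂ) * ps m (-(z.1 * w.1 + z.2 * w.2))),
    Finset.mul_sum]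
  refine Finset.sum_congr rfl fun w _ => ?_
  have : -(z.1 * w.1 + z.2 * w.2) = z.1 + -(z.1 * (E1 m w).1 + z.2 * (E1 m w).2) := by
    simp only [E1, Equiv.coe_fn_mk]; ring
  rw [this, AddChar.map_add_eq_mul]
  ring

theorem FT_E2 (g : ZMod m × ZMod m → ℝ) (z : ZMod m × ZMod m) :
    FT (fun w => g (E2 m w)) z = ps m z.2 * FT g z := by
  unfold FT
  rw [← Equiv.sum_comp (E2 m) (fun w => (g w : ℂ) * ps m (-(z.1 * w.1 + z.2 * w.2))),
    Finset.mul_sum]
  refine Finset.sum_congr rfl fun w _ => ?_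
  have : -(z.1 * w.1 + z.2 * w.2) = z.2 + -(z.1 * (E2 m w).1 + z.2 * (E2 m w).2) := by
    simp only [E2, Equiv.coe_fn_mk]; ring
  rw [this, AddChar.map_add_eq_mul]
  ring

/-- far characters move. -/
theorem far (a : ZMod m) (ha : (m : ℤ) ≤ 8 * |a.valMinAbs|) : 1 / 2 ≤ ‖ps m a - 1‖ := by
  have hm : 0 < (m : ℝ) := by exact_mod_cast Nat.pos_of_ne_zero (NeZero.ne m)
  have h1 : ps m a = Complex.exp (Complex.I * ((2 * Real.pi * (a.valMinAbs : ℝ) / m : ℝ) : ℂ)) := by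
    have h2 : ps m ((a.valMinAbs : ℤ) : ZMod m) = Complex.exp (2 * Real.pi * Complex.I * (a.valMinAbs : ℤ) / m) :=
      ZMod.stdAddChar_coe (a.valMinAbs)
    rw [ZMod.coe_valMinAbs] at h2
    rw [h2]
    congr 1
    push_cast
    ring
  rw [h1, Complex.norm_exp_I_mul_ofReal_sub_one]
  rw [norm_mul, Real.norm_eq_abs, Real.norm_eq_abs, abs_of_pos (by norm_num : (0:ℝ) < 2)]
  have hb := a.valMinAbs_mem_Ioc
  have hb1 : |((a.valMinAbs : ℤ) : ℝ)| * 2 ≤ m := by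
    have : |a.valMinAbs| * 2 ≤ m := by
      rcases abs_cases a.valMinAbs with h | h <;> rcases hb with ⟨h3, h4⟩ <;> omega
    exact_mod_cast this
  have hb2 : (m : ℝ) ≤ 8 * |((a.valMinAbs : ℤ) : ℝ)| := by exact_mod_cast ha
  set t : ℝ := |((a.valMinAbs : ℤ) : ℝ)| with ht
  have h5 : |Real.sin (2 * Real.pi * (a.valMinAbs : ℝ) / m / 2)| = Real.sin (Real.pi * t / m) := by
    have h6 : 2 * Real.pi * (a.valMinAbs : ℝ) / m / 2 = Real.pi * (a.valMinAbs : ℝ) / m := by ring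
    rw [h6]
    have h7 : 0 ≤ Real.sin (Real.pi * t / m) := by
      apply Real.sin_nonneg_of_nonneg_of_le_pi
      · positivity
      · rw [div_le_iff₀ hm]
        nlinarith [Real.pi_pos]
    rcases abs_choice ((a.valMinAbs : ℤ) : ℝ) with h8 | h8
    · rw [← ht] at h8
      rw [← h8, abs_of_nonneg h7]
    · rw [← ht] at h8
      have h9 : ((a.valMinAbs : ℤ) : ℝ) = - t := by rw [h8]; ring
      rw [h9, show Real.pi * -t / m = -(Real.pi * t / m) by ring, Real.sin_neg, abs_neg,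
        abs_of_nonneg h7]
  rw [h5]
  have h10 : 2 / Real.pi * (Real.pi * t / m) ≤ Real.sin (Real.pi * t / m) := by
    apply Real.mul_le_sin
    · positivity
    · rw [div_le_div_iff₀ hm (by norm_num)]
      nlinarith [Real.pi_pos]
  have h11 : 2 / Real.pi * (Real.pi * t / m) = 2 * t / m := by
    field_simp
  have h12 : 1 / 4 ≤ 2 * t / m := by
    rw [div_le_div_iff₀ (by norm_num) hm]
    linarith
  linarith

/-- absolute value of the centred representative. -/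
def av (a : ZMod m) : ℤ := |a.valMinAbs|

theorem av_zero_iff (a : ZMod m) : av a = 0 ↔ a = 0 := by
  unfold av
  rw [abs_eq_zero, ZMod.valMinAbs_eq_zero]

theorem vma_add (a b : ZMod m) (ha : 8 * av a < m) (hb : 8 * av b < m) (e : ℤ)
    (he : e = 2 ∨ e = -2) :
    (b + (e : ZMod m) * a).valMinAbs = b.valMinAbs + e * a.valMinAbs := by
  rw [ZMod.valMinAbs_spec]
  constructor
  · simp
  · unfold av at ha hb
    rw [Set.mem_Ioc]
    rcases abs_cases a.valMinAbs with h | h <;> rcases abs_cases b.valMinAbs with h' | h' <;>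
      rcases he with rfl | rfl <;> constructor <;> omega

/-- The good set for the shear in the second variable. -/
def CC (m : ℕ) [NeZero m] : Finset (ZMod m × ZMod m) :=
  univ.filter (fun z => z ≠ 0 ∧ av z.2 ≤ av z.1 ∧ 8 * av z.1 < m ∧ 8 * av z.2 < m)

theorem T2_mem (z : ZMod m × ZMod m) (hz : z ∈ CC m) :
    av (T2 m z).1 ≤ av (T2 m z).2 := by
  simp only [CC, mem_filter, mem_univ, true_and] at hz
  obtain ⟨h0, h1, h2, h3⟩ := hz
  have h4 := vma_add z.1 z.2 h2 h3 2 (Or.inl rfl)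
  simp only [T2, Equiv.coe_fn_mk]
  unfold av at *
  push_cast at h4
  rw [h4]
  rcases abs_cases z.1.valMinAbs with h | h <;> rcases abs_cases z.2.valMinAbs with h' | h' <;>
    rcases abs_cases (z.2.valMinAbs + 2 * z.1.valMinAbs) with h'' | h'' <;> omega

theorem T2s_mem (z : ZMod m × ZMod m) (hz : z ∈ CC m) :
    av ((T2 m).symm z).1 ≤ av ((T2 m).symm z).2 := by
  simp only [CC, mem_filter, mem_univ, true_and] at hz
  obtain ⟨h0, h1, h2, h3⟩ := hz
  have h4 := vma_add z.1 z.2 h2 h3 (-2) (Or.inr rfl)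
  simp only [T2, Equiv.coe_fn_symm_mk]
  unfold av at *
  push_cast at h4
  rw [show z.2 - 2 * z.1 = z.2 + -2 * z.1 by ring, h4]
  rcases abs_cases z.1.valMinAbs with h | h <;> rcases abs_cases z.2.valMinAbs with h' | h' <;>
    rcases abs_cases (z.2.valMinAbs + -2 * z.1.valMinAbs) with h'' | h'' <;> omega

theorem disj (z z' : ZMod m × ZMod m) (hz : z ∈ CC m) (hz' : z' ∈ CC m)
    (h : T2 m z = (T2 m).symm z') : False := by
  simp only [CC, mem_filter, mem_univ, true_and] at hz hz'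
  obtain ⟨h0, h1, h2, h3⟩ := hz
  obtain ⟨h0', h1', h2', h3'⟩ := hz'
  have h4 := vma_add z.1 z.2 h2 h3 2 (Or.inl rfl)
  have h4' := vma_add z'.1 z'.2 h2' h3' (-2) (Or.inr rfl)
  simp only [T2, Equiv.coe_fn_mk, Equiv.coe_fn_symm_mk, Prod.mk.injEq] at h
  obtain ⟨h5, h6⟩ := h
  push_cast at h4 h4'
  rw [h6, show z'.2 - 2 * z'.1 = z'.2 + -2 * z'.1 by ring, h4', ← h5] at h4
  have h7 : z.1.valMinAbs ≠ 0 := by
    intro h8
    have h9 : z.1 = 0 := by rwa [ZMod.valMinAbs_eq_zero] at h8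
    have h10 : z.2 = 0 := by
      rw [← av_zero_iff]
      have : av z.1 = 0 := by rw [av_zero_iff]; exact h9
      have h11 : 0 ≤ av z.2 := abs_nonneg _
      omega
    exact h0 (Prod.ext h9 h10)
  rw [← h5] at h1'
  unfold av at *
  rcases abs_cases z.1.valMinAbs with h | h <;> rcases abs_cases z.2.valMinAbs with h' | h' <;>
    rcases abs_cases z'.2.valMinAbs with h'' | h'' <;> omega

/-- the measure argument for one direction. -/
theorem cone (H : ZMod m × ZMod m → ℝ) (hH : ∀ z, 0 ≤ H z) :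
    ∑ z ∈ CC m, H (T2 m z) + ∑ z ∈ CC m, H ((T2 m).symm z)
      ≤ ∑ z ∈ univ.filter (fun z : ZMod m × ZMod m => av z.1 ≤ av z.2), H z := by
  have h1 : ∑ z ∈ CC m, H (T2 m z) = ∑ z ∈ (CC m).map (T2 m).toEmbedding, H z := by
    rw [Finset.sum_map]; rfl
  have h2 : ∑ z ∈ CC m, H ((T2 m).symm z) = ∑ z ∈ (CC m).map (T2 m).symm.toEmbedding, H z := by
    rw [Finset.sum_map]; rfl
  have h3 : Disjoint ((CC m).map (T2 m).toEmbedding) ((CC m).map (T2 m).symm.toEmbedding) := by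
    rw [Finset.disjoint_left]
    intro z hz hz'
    rw [Finset.mem_map] at hz hz'
    obtain ⟨w, hw, rfl⟩ := hz
    obtain ⟨w', hw', h⟩ := hz'
    exact disj w w' hw hw' h.symm
  rw [h1, h2, ← Finset.sum_union h3]
  apply Finset.sum_le_sum_of_subset_of_nonneg
  · intro z hz
    rw [Finset.mem_union, Finset.mem_map, Finset.mem_map] at hz
    rw [Finset.mem_filter]
    refine ⟨Finset.mem_univ _, ?_⟩
    rcases hz with ⟨w, hw, rfl⟩ | ⟨w, hw, rfl⟩
    · exact T2_mem w hw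
    · exact T2s_mem w hw
  · intro z _ _
    exact hH z

theorem pw (x y : ℝ) : x ^ 2 - y ^ 2 ≤ 12 * (y - x) ^ 2 + 1 / 24 * (x ^ 2 + y ^ 2) := by
  nlinarith [sq_nonneg ((x - y) - (x + y) / 24), sq_nonneg (x - y)]

/-- one half of the inequality. -/
theorem half (G : ZMod m × ZMod m → ℝ) (c : ZMod m × ZMod m → ℝ) (hG0 : G 0 = 0)
    (hc : ∀ z, 0 ≤ c z)
    (hfar : ∀ z, ¬ (8 * av z.1 < m ∧ 8 * av z.2 < m) → G z ^ 2 ≤ 4 * c z) :
    2 * ∑ z ∈ univ.filter (fun z : ZMod m × ZMod m => av z.2 ≤ av z.1), G z ^ 2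
      - 8 * ∑ z, c z - 24 * ∑ z, (G (T2 m z) - G z) ^ 2 - 1 / 6 * ∑ z, G z ^ 2
      ≤ ∑ z ∈ univ.filter (fun z : ZMod m × ZMod m => av z.1 ≤ av z.2), G z ^ 2 := by
  have h1 := cone (fun z => G z ^ 2) (fun z => sq_nonneg _)
  have h2 : ∑ z ∈ univ.filter (fun z : ZMod m × ZMod m => av z.2 ≤ av z.1), G z ^ 2
      ≤ ∑ z ∈ CC m, G z ^ 2 + 4 * ∑ z, c z := by
    have h3 : ∑ z ∈ univ.filter (fun z : ZMod m × ZMod m => av z.2 ≤ av z.1), G z ^ 2
        ≤ ∑ z ∈ univ.filter (fun z : ZMod m × ZMod m => av z.2 ≤ av z.1),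
          ((if z ∈ CC m then G z ^ 2 else 0) + 4 * c z) := by
      apply Finset.sum_le_sum
      intro z hz
      rw [Finset.mem_filter] at hz
      by_cases hC : z ∈ CC m
      · rw [if_pos hC]
        linarith [hc z]
      · rw [if_neg hC]
        by_cases h0 : z = 0
        · rw [h0, hG0]
          have := hc 0
          nlinarith
        · have h4 : ¬ (8 * av z.1 < m ∧ 8 * av z.2 < m) := by
            intro h5
            apply hC
            simp only [CC, mem_filter, mem_univ, true_and]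
            exact ⟨h0, hz.2, h5.1, h5.2⟩
          have := hfar z h4
          linarith
    refine h3.trans ?_
    rw [Finset.sum_add_distrib, ← Finset.mul_sum]
    have h5 : ∑ z ∈ univ.filter (fun z : ZMod m × ZMod m => av z.2 ≤ av z.1),
        (if z ∈ CC m then G z ^ 2 else 0) ≤ ∑ z ∈ CC m, G z ^ 2 := by
      rw [← Finset.sum_filter]
      apply Finset.sum_le_sum_of_subset_of_nonneg
      · intro z hz
        exact (Finset.mem_filter.1 hz).2
      · intro z _ _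
        positivity
    have h6 : ∑ z ∈ univ.filter (fun z : ZMod m × ZMod m => av z.2 ≤ av z.1), c z
        ≤ ∑ z, c z := Finset.sum_le_sum_of_subset_of_nonneg (Finset.filter_subset _ _)
          (fun z _ _ => hc z)
    linarith
  have h7 : ∑ z ∈ CC m, G z ^ 2 - ∑ z ∈ CC m, G (T2 m z) ^ 2
      ≤ 12 * ∑ z, (G (T2 m z) - G z) ^ 2 + 1 / 12 * ∑ z, G z ^ 2 := by
    rw [← Finset.sum_sub_distrib]
    have h8 : ∑ z ∈ CC m, (G z ^ 2 - G (T2 m z) ^ 2)
        ≤ ∑ z ∈ CC m, (12 * (G (T2 m z) - G z) ^ 2 + 1 / 24 * (G z ^ 2 + G (T2 m z) ^ 2)) :=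
      Finset.sum_le_sum fun z _ => pw _ _
    have h9 : ∑ z ∈ CC m, (12 * (G (T2 m z) - G z) ^ 2 + 1 / 24 * (G z ^ 2 + G (T2 m z) ^ 2))
        ≤ ∑ z, (12 * (G (T2 m z) - G z) ^ 2 + 1 / 24 * (G z ^ 2 + G (T2 m z) ^ 2)) :=
      Finset.sum_le_sum_of_subset_of_nonneg (Finset.subset_univ _) (fun z _ _ => by positivity)
    have h10 : ∑ z, G (T2 m z) ^ 2 = ∑ z, G z ^ 2 :=
      Equiv.sum_comp (T2 m) (fun z => G z ^ 2)
    have h := h8.trans h9
    simp only [Finset.sum_add_distrib, ← Finset.mul_sum, h10] at h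
    linarith
  have h11 : ∑ z ∈ CC m, G z ^ 2 - ∑ z ∈ CC m, G ((T2 m).symm z) ^ 2
      ≤ 12 * ∑ z, (G (T2 m z) - G z) ^ 2 + 1 / 12 * ∑ z, G z ^ 2 := by
    rw [← Finset.sum_sub_distrib]
    have h8 : ∑ z ∈ CC m, (G z ^ 2 - G ((T2 m).symm z) ^ 2)
        ≤ ∑ z ∈ CC m, (12 * (G ((T2 m).symm z) - G z) ^ 2
          + 1 / 24 * (G z ^ 2 + G ((T2 m).symm z) ^ 2)) :=
      Finset.sum_le_sum fun z _ => pw _ _
    have h9 : ∑ z ∈ CC m, (12 * (G ((T2 m).symm z) - G z) ^ 2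
          + 1 / 24 * (G z ^ 2 + G ((T2 m).symm z) ^ 2))
        ≤ ∑ z, (12 * (G ((T2 m).symm z) - G z) ^ 2
          + 1 / 24 * (G z ^ 2 + G ((T2 m).symm z) ^ 2)) :=
      Finset.sum_le_sum_of_subset_of_nonneg (Finset.subset_univ _) (fun z _ _ => by positivity)
    have h10 : ∑ z, G ((T2 m).symm z) ^ 2 = ∑ z, G z ^ 2 :=
      Equiv.sum_comp (T2 m).symm (fun z => G z ^ 2)
    have h12 : ∑ z, (G ((T2 m).symm z) - G z) ^ 2 = ∑ z, (G (T2 m z) - G z) ^ 2 := by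
      rw [← Equiv.sum_comp (T2 m) (fun z => (G ((T2 m).symm z) - G z) ^ 2)]
      refine Finset.sum_congr rfl fun z _ => ?_
      rw [Equiv.symm_apply_apply]
      ring
    have h := h8.trans h9
    simp only [Finset.sum_add_distrib, ← Finset.mul_sum, h10, h12] at h
    linarith
  linarith

theorem swapsum (H : ZMod m × ZMod m → ℝ) :
    ∑ z : ZMod m × ZMod m, H z.swap = ∑ z, H z := Equiv.sum_comp (Equiv.prodComm _ _) H

/-- the inequality for the Fourier transform. -/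
theorem real_part (G : ZMod m × ZMod m → ℝ) (c : ZMod m × ZMod m → ℝ) (hG0 : G 0 = 0)
    (hc : ∀ z, 0 ≤ c z)
    (hfar : ∀ z, ¬ (8 * av z.1 < m ∧ 8 * av z.2 < m) → G z ^ 2 ≤ 4 * c z) :
    ∑ z, G z ^ 2 ≤ 24 * ∑ z, c z + 36 * ∑ z, (G (T2 m z) - G z) ^ 2
      + 36 * ∑ z, (G (T1 m z) - G z) ^ 2 := by
  have h1 := half G c hG0 hc hfar
  have h2 := half (fun z => G z.swap) (fun z => c z.swap) hG0 (fun z => hc _)
    (fun z hz => hfar z.swap (fun h => hz ⟨h.2, h.1⟩))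
  have e1 : ∑ z ∈ univ.filter (fun z : ZMod m × ZMod m => av z.2 ≤ av z.1), G z.swap ^ 2
      = ∑ z ∈ univ.filter (fun z : ZMod m × ZMod m => av z.1 ≤ av z.2), G z ^ 2 := by
    rw [Finset.sum_filter, Finset.sum_filter]
    exact swapsum (fun z => if av z.1 ≤ av z.2 then G z ^ 2 else 0)
  have e2 : ∑ z ∈ univ.filter (fun z : ZMod m × ZMod m => av z.1 ≤ av z.2), G z.swap ^ 2
      = ∑ z ∈ univ.filter (fun z : ZMod m × ZMod m => av z.2 ≤ av z.1), G z ^ 2 := by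
    rw [Finset.sum_filter, Finset.sum_filter]
    exact swapsum (fun z => if av z.2 ≤ av z.1 then G z ^ 2 else 0)
  have e3 : ∑ z : ZMod m × ZMod m, c z.swap = ∑ z, c z := swapsum c
  have e4 : ∑ z : ZMod m × ZMod m, G z.swap ^ 2 = ∑ z, G z ^ 2 := swapsum (fun z => G z ^ 2)
  have e5 : ∑ z : ZMod m × ZMod m, (G (T2 m z).swap - G z.swap) ^ 2
      = ∑ z, (G (T1 m z) - G z) ^ 2 := swapsum (fun z => (G (T1 m z) - G z) ^ 2)
  rw [e1, e2, e3, e4, e5] at h2
  have h3 : ∑ z, G z ^ 2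
      ≤ ∑ z ∈ univ.filter (fun z : ZMod m × ZMod m => av z.1 ≤ av z.2), G z ^ 2
        + ∑ z ∈ univ.filter (fun z : ZMod m × ZMod m => av z.2 ≤ av z.1), G z ^ 2 := by
    rw [Finset.sum_filter, Finset.sum_filter, ← Finset.sum_add_distrib]
    apply Finset.sum_le_sum
    intro z _
    by_cases h : av z.1 ≤ av z.2
    · rw [if_pos h]
      split_ifs <;> nlinarith [sq_nonneg (G z)]
    · rw [if_neg h, if_pos (by omega)]
      linarith
  linarith

theorem stmt_GG : Stmt_GG := by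
  intro m _ f hf
  have hm : 0 < (m : ℝ) := by exact_mod_cast Nat.pos_of_ne_zero (NeZero.ne m)
  have hm2 : 0 < (m : ℝ) ^ 2 := by positivity
  have p0 := parseval f
  have p1 : (m : ℝ) ^ 2 * ∑ z : ZMod m × ZMod m, (f (z.1 + 2 * z.2, z.2) - f z) ^ 2
      ≥ ∑ z, (‖FT f (T2 m z)‖ - ‖FT f z‖) ^ 2 := by
    have h := parseval (fun w => f (T1 m w) - f w)
    have h' : ∑ w, (f (T1 m w) - f w) ^ 2
        = ∑ z : ZMod m × ZMod m, (f (z.1 + 2 * z.2, z.2) - f z) ^ 2 := rfl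
    rw [h'] at h
    rw [← h, ← Equiv.sum_comp (T2 m)]
    apply Finset.sum_le_sum
    intro z _
    rw [FT_sub, FT_T1, Equiv.symm_apply_apply]
    rw [norm_sub_rev]
    have h1 := abs_norm_sub_norm_le (FT f (T2 m z)) (FT f z)
    rw [← sq_abs]
    exact pow_le_pow_left₀ (abs_nonneg _) h1 2
  have p2 : (m : ℝ) ^ 2 * ∑ z : ZMod m × ZMod m, (f (z.1, z.2 + 2 * z.1) - f z) ^ 2
      ≥ ∑ z, (‖FT f (T1 m z)‖ - ‖FT f z‖) ^ 2 := by
    have h := parseval (fun w => f (T2 m w) - f w)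
    have h' : ∑ w, (f (T2 m w) - f w) ^ 2
        = ∑ z : ZMod m × ZMod m, (f (z.1, z.2 + 2 * z.1) - f z) ^ 2 := rfl
    rw [h'] at h
    rw [← h, ← Equiv.sum_comp (T1 m)]
    apply Finset.sum_le_sum
    intro z _
    rw [FT_sub, FT_T2, Equiv.symm_apply_apply]
    rw [norm_sub_rev]
    have h1 := abs_norm_sub_norm_le (FT f (T1 m z)) (FT f z)
    rw [← sq_abs]
    exact pow_le_pow_left₀ (abs_nonneg _) h1 2
  have p3 : (m : ℝ) ^ 2 * ∑ z : ZMod m × ZMod m, (f (z.1 + 1, z.2) - f z) ^ 2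
      = ∑ z : ZMod m × ZMod m, ‖ps m z.1 - 1‖ ^ 2 * ‖FT f z‖ ^ 2 := by
    have h := parseval (fun w => f (E1 m w) - f w)
    have h' : ∑ w, (f (E1 m w) - f w) ^ 2
        = ∑ z : ZMod m × ZMod m, (f (z.1 + 1, z.2) - f z) ^ 2 := rfl
    rw [h'] at h
    rw [← h]
    refine Finset.sum_congr rfl fun z _ => ?_
    rw [FT_sub, FT_E1, ← mul_pow, ← norm_mul]
    congr 2
    ring
  have p4 : (m : ℝ) ^ 2 * ∑ z : ZMod m × ZMod m, (f (z.1, z.2 + 1) - f z) ^ 2
      = ∑ z : ZMod m × ZMod m, ‖ps m z.2 - 1‖ ^ 2 * ‖FT f z‖ ^ 2 := by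
    have h := parseval (fun w => f (E2 m w) - f w)
    have h' : ∑ w, (f (E2 m w) - f w) ^ 2
        = ∑ z : ZMod m × ZMod m, (f (z.1, z.2 + 1) - f z) ^ 2 := rfl
    rw [h'] at h
    rw [← h]
    refine Finset.sum_congr rfl fun z _ => ?_
    rw [FT_sub, FT_E2, ← mul_pow, ← norm_mul]
    congr 2
    ring
  have key := real_part (fun z => ‖FT f z‖)
    (fun z => ‖ps m z.1 - 1‖ ^ 2 * ‖FT f z‖ ^ 2 + ‖ps m z.2 - 1‖ ^ 2 * ‖FT f z‖ ^ 2)
    (by simp only [FT_zero f hf, norm_zero]) (fun z => by positivity) (by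
      intro z hz
      have h0 : 0 ≤ ‖FT f z‖ ^ 2 := by positivity
      by_cases h : 8 * av z.1 < m
      · have h2 : (m : ℤ) ≤ 8 * |z.2.valMinAbs| := by
          by_contra h3
          push Not at h3
          exact hz ⟨h, h3⟩
        have h3 := far z.2 h2
        have h4 : 1 / 4 ≤ ‖ps m z.2 - 1‖ ^ 2 := by nlinarith
        have h5 : 0 ≤ ‖ps m z.1 - 1‖ ^ 2 * ‖FT f z‖ ^ 2 := by positivity
        nlinarith
      · have h2 : (m : ℤ) ≤ 8 * |z.1.valMinAbs| := by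
          unfold av at h
          omega
        have h3 := far z.1 h2
        have h4 : 1 / 4 ≤ ‖ps m z.1 - 1‖ ^ 2 := by nlinarith
        have h5 : 0 ≤ ‖ps m z.2 - 1‖ ^ 2 * ‖FT f z‖ ^ 2 := by positivity
        nlinarith)
  simp only [Finset.sum_add_distrib] at key
  rw [p0, ← p3, ← p4] at key
  have n1 : 0 ≤ ∑ z : ZMod m × ZMod m, (f (z.1 + 2 * z.2, z.2) - f z) ^ 2 :=
    Finset.sum_nonneg fun z _ => sq_nonneg _
  have n2 : 0 ≤ ∑ z : ZMod m × ZMod m, (f (z.1, z.2 + 2 * z.1) - f z) ^ 2 :=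
    Finset.sum_nonneg fun z _ => sq_nonneg _
  have n3 : 0 ≤ ∑ z : ZMod m × ZMod m, (f (z.1 + 1, z.2) - f z) ^ 2 :=
    Finset.sum_nonneg fun z _ => sq_nonneg _
  have n4 : 0 ≤ ∑ z : ZMod m × ZMod m, (f (z.1, z.2 + 1) - f z) ^ 2 :=
    Finset.sum_nonneg fun z _ => sq_nonneg _
  have key2 : (m : ℝ) ^ 2 * ∑ w, f w ^ 2
      ≤ (m : ℝ) ^ 2 * (144 * (∑ z : ZMod m × ZMod m, (f (z.1 + 2 * z.2, z.2) - f z) ^ 2
      + ∑ z : ZMod m × ZMod m, (f (z.1, z.2 + 2 * z.1) - f z) ^ 2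
      + ∑ z : ZMod m × ZMod m, (f (z.1 + 1, z.2) - f z) ^ 2
      + ∑ z : ZMod m × ZMod m, (f (z.1, z.2 + 1) - f z) ^ 2)) := by
    nlinarith [mul_nonneg hm2.le n1, mul_nonneg hm2.le n2, mul_nonneg hm2.le n3,
      mul_nonneg hm2.le n4]
  exact le_of_mul_le_mul_left key2 hm2

end

end Pool.Agent.Work.MP_db9399_mad.helper46
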