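import Mathlib
import Pool.Agent.Work.MP_db9399_mad.Interface
import Pool.Agent.Work.MP_db9399_mad_helper46.GG

/-!
# MP_db9399, THEOREM MAD, block EXPD: assembly of the expander (helper46)
-/

set_option autoImplicit false

namespace Pool.Agent.Work.MP_db9399_mad.helper46

open Finset

noncomputable section

/-- The permutations of the lift. -/
def pp (m : ℕ) (d : ZMod 11) : Equiv.Perm (ZMod m × ZMod m) :=
  (![1, 1, T1 m, T2 m, E1 m, E2 m, (E2 m)⁻¹, (E1 m)⁻¹, (T2 m)⁻¹, (T1 m)⁻¹, 1] :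
    Fin 11 → Equiv.Perm (ZMod m × ZMod m)) d

theorem pp_neg (m : ℕ) (d : ZMod 11) : pp m (-d) = (pp m d)⁻¹ := by
  fin_cases d <;> rfl

theorem pp_poinc (m : ℕ) [NeZero m] (f : ZMod m × ZMod m → ℝ) (hf : ∑ z, f z = 0)
    (hGG : Stmt_GG) :
    ∑ z, f z ^ 2 ≤ 144 * ∑ d ∈ ({2, 3, 4, 5} : Finset (ZMod 11)),
      ∑ z, (f (pp m d z) - f z) ^ 2 := by
  rw [Finset.sum_insert (by decide), Finset.sum_insert (by decide),
    Finset.sum_insert (by decide), Finset.sum_singleton]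
  have h := hGG m f hf
  have e2 : ∑ z, (f (pp m 2 z) - f z) ^ 2
      = ∑ z : ZMod m × ZMod m, (f (z.1 + 2 * z.2, z.2) - f z) ^ 2 := rfl
  have e3 : ∑ z, (f (pp m 3 z) - f z) ^ 2
      = ∑ z : ZMod m × ZMod m, (f (z.1, z.2 + 2 * z.1) - f z) ^ 2 := rfl
  have e4 : ∑ z, (f (pp m 4 z) - f z) ^ 2
      = ∑ z : ZMod m × ZMod m, (f (z.1 + 1, z.2) - f z) ^ 2 := rfl
  have e5 : ∑ z, (f (pp m 5 z) - f z) ^ 2
      = ∑ z : ZMod m × ZMod m, (f (z.1, z.2 + 1) - f z) ^ 2 := rfl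
  rw [e2, e3, e4, e5]
  linarith

theorem stmt_EXPD : Stmt_EXPD := by
  intro hGG hLIFT hBLOW
  refine ⟨49 / 1000 * (1 / 144000), by norm_num, fun D N0 hD => ?_⟩
  set m : ℕ := N0 + 1 with hm
  set s : ℕ := (D - 1) / 10 with hs
  have hs1 : 0 < s := by omega
  have hs2 : 10 * s + 1 ≤ D := by omega
  have hs3 : D ≤ 10 * s + 10 := by omega
  haveI : NeZero m := ⟨by omega⟩
  refine ⟨((ZMod m × ZMod m) × ZMod 11) × Fin s, inferInstance, LG (pp m) (pp_neg m) s, ?_, ?_⟩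
  · simp only [Fintype.card_prod, ZMod.card, Fintype.card_fin]
    have h1 : m ≤ m * m := Nat.le_mul_self m
    have h2 : m * m ≤ m * m * 11 * s := by
      have : 1 ≤ 11 * s := by omega
      calc m * m = m * m * 1 := by ring
        _ ≤ m * m * (11 * s) := Nat.mul_le_mul_left _ this
        _ = m * m * 11 * s := by ring
    omega
  · intro _
    have hlift := hLIFT (ZMod m × ZMod m) 144 (pp m) (by norm_num) rfl (pp_neg m)
      (fun f hf => pp_poinc m f hf hGG)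
    obtain ⟨hdeg, hexp⟩ := hBLOW (ZMod m × ZMod m) (pp m) (pp_neg m) (10 - 1 / (1000 * 144)) s
      (by norm_num) (by norm_num) ⟨(0, 0)⟩ hs1 hlift
    refine ⟨fun w => ?_, fun A B hA hB => ?_⟩
    · rw [hdeg w]
      exact ⟨hs2, hs3⟩
    · refine (hexp A B hA hB).trans ?_
      have h1 : (10 * (s : ℝ)) ≤ D := by
        have : 10 * s ≤ D := by omega
        exact_mod_cast this
      have h2 : (0 : ℝ) ≤ ((A.card : ℝ) + B.card) / 2 := by positivity
      have h3 : (1 - 49 / 1000 * (10 - (10 - 1 / (1000 * 144 : ℝ)))) * (10 * s)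
          ≤ (1 - 49 / 1000 * (1 / 144000)) * D := by
        have h4 : (1 - 49 / 1000 * (10 - (10 - 1 / (1000 * 144 : ℝ))))
          = (1 - 49 / 1000 * (1 / 144000)) := by norm_num
        rw [h4]
        exact mul_le_mul_of_nonneg_left h1 (by norm_num)
      exact mul_le_mul_of_nonneg_right h3 h2

end

end Pool.Agent.Work.MP_db9399_mad.helper46
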